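import Mathlib

set_option autoImplicit false

namespace Pool.H446TIG

open Polynomial Module

theorem quad_end {V : Type*} [AddCommGroup V] [Module ℝ V] [FiniteDimensional ℝ V] [Nontrivial V]
    (σ : V →ₗ[ℝ] V) : ∃ v : V, v ≠ 0 ∧ ∃ a b : ℝ, σ (σ v) = a • σ v + b • v := by
  have hint : IsIntegral ℝ (σ : Module.End ℝ V) := Algebra.IsIntegral.isIntegral _
  have hpos : 0 < (minpoly ℝ (σ : Module.End ℝ V)).degree := minpoly.degree_pos hint
  obtain ⟨p, hp, q, hq⟩ := Polynomial.exists_irreducible_of_degree_pos hpos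
  have hm0 : minpoly ℝ (σ : Module.End ℝ V) ≠ 0 := minpoly.ne_zero hint
  have hq0 : q ≠ 0 := by rintro rfl; simp [hq] at hm0
  have hqne : aeval (σ : Module.End ℝ V) q ≠ 0 := by
    intro h
    have h1 := minpoly.degree_le_of_ne_zero ℝ (σ : Module.End ℝ V) hq0 h
    rw [hq, Polynomial.degree_mul] at h1
    have h2 := hp.degree_pos
    rw [Polynomial.degree_eq_natDegree hq0, Polynomial.degree_eq_natDegree hp.ne_zero] at *
    norm_cast at h1 h2
    omega
  obtain ⟨w, hw⟩ : ∃ w, aeval (σ : Module.End ℝ V) q w ≠ 0 := by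
    by_contra hcon
    push Not at hcon
    exact hqne (LinearMap.ext hcon)
  set v := aeval (σ : Module.End ℝ V) q w with hv
  have hpv : aeval (σ : Module.End ℝ V) p v = 0 := by
    have := minpoly.aeval ℝ (σ : Module.End ℝ V)
    rw [hq, map_mul] at this
    have h2 := congrArg (fun f : Module.End ℝ V => f w) this
    simpa using h2
  refine ⟨v, hw, ?_⟩
  have hdeg := hp.degree_le_two
  have hform := Polynomial.eq_quadratic_of_degree_le_two hdeg
  rw [hform] at hpv
  simp only [map_add, map_mul, aeval_C, aeval_X, map_pow, LinearMap.add_apply,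
    Module.End.mul_apply, Module.algebraMap_end_apply, pow_two] at hpv
  by_cases h2 : p.coeff 2 = 0
  · have h1 : p.coeff 1 ≠ 0 := by
      intro h1
      have := hp.degree_pos
      rw [hform, h2, h1] at this
      simp at this
      exact absurd this (not_lt.2 Polynomial.degree_C_le)
    rw [h2, zero_smul, zero_add] at hpv
    have e : σ v = (-(p.coeff 0) / p.coeff 1) • v := by
      have : p.coeff 1 • σ v = -(p.coeff 0) • v := by
        rw [neg_smul]; exact eq_neg_of_add_eq_zero_left hpv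
      rw [div_eq_inv_mul, mul_smul, ← this, smul_smul, inv_mul_cancel₀ h1, one_smul]
    refine ⟨-(p.coeff 0) / p.coeff 1, 0, ?_⟩
    rw [zero_smul, add_zero]
    conv_lhs => rw [e]
    rw [map_smul]
  · refine ⟨-(p.coeff 1) / p.coeff 2, -(p.coeff 0) / p.coeff 2, ?_⟩
    have : p.coeff 2 • σ (σ v) = -(p.coeff 1) • σ v + -(p.coeff 0) • v := by
      rw [neg_smul, neg_smul, ← neg_add]
      exact eq_neg_of_add_eq_zero_left (by rw [← add_assoc]; exact hpv)
    rw [div_eq_inv_mul, div_eq_inv_mul, mul_smul, mul_smul, ← smul_add, ← this, smul_smul,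
      inv_mul_cancel₀ h2, one_smul]

variable {R : Type*} [Ring R] [Algebra ℝ R] [FiniteDimensional ℝ R]

theorem quad (W : Submodule ℝ R) (hW : W ≠ ⊥) (σ : R →ₗ[ℝ] R) (hσ : ∀ x ∈ W, σ x ∈ W) :
    ∃ v ∈ W, v ≠ 0 ∧ ∃ a b : ℝ, σ (σ v) = a • σ v + b • v := by
  haveI : Nontrivial W := Submodule.nontrivial_iff_ne_bot.2 hW
  obtain ⟨v, hv, a, b, h⟩ := quad_end (σ.restrict hσ)
  refine ⟨v, v.2, fun e => hv (Subtype.ext e), a, b, ?_⟩
  have := congrArg Subtype.val h
  simpa using this

theorem stable_surj (S : Submodule ℝ R) (σ : R →ₗ[ℝ] R) (hinj : Function.Injective σ)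
    (hσ : ∀ x ∈ S, σ x ∈ S) : ∀ y ∈ S, ∃ x ∈ S, σ x = y := by
  have h1 : Function.Injective (σ.restrict hσ) := by
    intro a b e
    apply Subtype.ext
    apply hinj
    have := congrArg Subtype.val e
    simpa using this
  have h2 := LinearMap.injective_iff_surjective.1 h1
  intro y hy
  obtain ⟨x, hx⟩ := h2 ⟨y, hy⟩
  exact ⟨x, x.2, by simpa using congrArg Subtype.val hx⟩

/-- a space of matrices closed under commutators with an anisotropic trace form -/
structure Good (τ : R →ₗ[ℝ] ℝ) (g : Submodule ℝ R) : Prop where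
  comm : ∀ x y, τ (x * y) = τ (y * x)
  br : ∀ x ∈ g, ∀ y ∈ g, x * y - y * x ∈ g
  aniso : ∀ x ∈ g, τ (x * x) = 0 → x = 0

/-- a self-centralising subspace -/
def Cartan (g t : Submodule ℝ R) : Prop :=
  t ≤ g ∧ ∀ y ∈ g, (y ∈ t ↔ ∀ z ∈ t, y * z = z * y)

/-- conjugation as a linear map -/
def ad (u v : R) : R →ₗ[ℝ] R := (LinearMap.mulRight ℝ v).comp (LinearMap.mulLeft ℝ u)

omit [FiniteDimensional ℝ R] in
theorem ad_apply (u v x : R) : ad u v x = u * x * v := rfl

/-- centraliser in `g` of a subspace -/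
def cent (g a : Submodule ℝ R) : Submodule ℝ R where
  carrier := {y | y ∈ g ∧ ∀ z ∈ a, y * z = z * y}
  add_mem' := fun {x y} hx hy => ⟨g.add_mem hx.1 hy.1, fun z hz => by
    rw [add_mul, mul_add, hx.2 z hz, hy.2 z hz]⟩
  zero_mem' := ⟨g.zero_mem, fun z _ => by simp⟩
  smul_mem' := fun c x hx => ⟨g.smul_mem c hx.1, fun z hz => by
    rw [smul_mul_assoc, mul_smul_comm, hx.2 z hz]⟩

/-- orthogonal complement inside `c` -/
def perp (τ : R →ₗ[ℝ] ℝ) (c a : Submodule ℝ R) : Submodule ℝ R where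
  carrier := {y | y ∈ c ∧ ∀ z ∈ a, τ (y * z) = 0}
  add_mem' := fun {x y} hx hy => ⟨c.add_mem hx.1 hy.1, fun z hz => by
    rw [add_mul, map_add, hx.2 z hz, hy.2 z hz, add_zero]⟩
  zero_mem' := ⟨c.zero_mem, fun z _ => by simp⟩
  smul_mem' := fun r x hx => ⟨c.smul_mem r hx.1, fun z hz => by
    rw [smul_mul_assoc, map_smul, hx.2 z hz, smul_zero]⟩

theorem eq_of_perp_bot (τ : R →ₗ[ℝ] ℝ) (c a : Submodule ℝ R) (hle : a ≤ c)
    (h : perp τ c a = ⊥) : c = a := by
  let φ : c →ₗ[ℝ] Module.Dual ℝ a :=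
    (((LinearMap.mul ℝ R).compr₂ τ).domRestrict₁₂ c a)
  have hinj : Function.Injective φ := by
    rw [← LinearMap.ker_eq_bot, eq_bot_iff]
    intro y hy
    have h1 : (y : R) ∈ perp τ c a := by
      refine ⟨y.2, fun z hz => ?_⟩
      have := congrArg (fun f : Module.Dual ℝ a => f ⟨z, hz⟩) (LinearMap.mem_ker.1 hy)
      exact this
    rw [h] at h1
    exact (Submodule.mem_bot ℝ).2 (Subtype.ext ((Submodule.mem_bot ℝ).1 h1))
  have h1 := LinearMap.finrank_le_finrank_of_injective hinj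
  rw [Subspace.dual_finrank_eq] at h1
  exact (Submodule.eq_of_le_of_finrank_le hle h1).symm

theorem exists_stable_cartan {τ : R →ₗ[ℝ] ℝ} {g : Submodule ℝ R} (hG : Good τ g) (u v : R)
    (huv : u * v = 1) (hvu : v * u = 1) (hg : ∀ x ∈ g, u * x * v ∈ g) :
    ∃ t, Cartan g t ∧ ∀ x ∈ t, u * x * v ∈ t := by
  classical
  let P : Submodule ℝ R → Prop := fun a =>
    a ≤ g ∧ (∀ x ∈ a, ∀ y ∈ a, x * y = y * x) ∧ ∀ x ∈ a, u * x * v ∈ a
  have hP0 : P ⊥ := ⟨bot_le, by simp, by simp⟩
  obtain ⟨a, ⟨hag, hab, hst⟩, hmax⟩ : ∃ a, P a ∧ ∀ b, P b → finrank ℝ b ≤ finrank ℝ a := by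
    let Q : ℕ → Prop := fun n => ∃ a, P a ∧ finrank ℝ a = n
    have h0 : Q (Nat.findGreatest Q (finrank ℝ R)) :=
      Nat.findGreatest_spec (P := Q) (Nat.zero_le _) ⟨⊥, hP0, by simp⟩
    obtain ⟨a, ha, e⟩ := h0
    refine ⟨a, ha, fun b hb => ?_⟩
    rw [e]
    exact Nat.le_findGreatest (Submodule.finrank_le b) ⟨b, hb, rfl⟩
  have hinj : Function.Injective (ad u v) := by
    intro x y e
    rw [ad_apply, ad_apply] at e
    have h1 : v * (u * x * v) * u = x := by
      rw [← mul_assoc, ← mul_assoc, hvu, one_mul, mul_assoc, hvu, mul_one]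
    have h2 : v * (u * y * v) * u = y := by
      rw [← mul_assoc, ← mul_assoc, hvu, one_mul, mul_assoc, hvu, mul_one]
    rw [← h1, e, h2]
  have hmul : ∀ x y : R, (u * x * v) * (u * y * v) = u * (x * y) * v := by
    intro x y
    calc (u * x * v) * (u * y * v) = u * x * (v * u) * y * v := by simp only [mul_assoc]
      _ = _ := by rw [hvu, mul_one]; simp only [mul_assoc]
  have hτ : ∀ x : R, τ (u * x * v) = τ x := by
    intro x
    rw [hG.comm, ← mul_assoc, hvu, one_mul]
  have hsurj := stable_surj a (ad u v) hinj hst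
  have hac : a ≤ cent g a := fun x hx => ⟨hag hx, hab x hx⟩
  -- enlarging `a` is impossible
  have hext : ∀ b : Submodule ℝ R, b ≤ cent g a → (∀ x ∈ b, ∀ y ∈ b, x * y = y * x) →
      (∀ x ∈ b, u * x * v ∈ b) → b ≤ a := by
    intro b hbc hbab hbst
    have hPb : P (a ⊔ b) := by
      refine ⟨sup_le hag (fun x hx => (hbc hx).1), ?_, ?_⟩
      · intro x hx y hy
        obtain ⟨x1, h1, x2, h2, rfl⟩ := Submodule.mem_sup.1 hx
        obtain ⟨y1, h3, y2, h4, rfl⟩ := Submodule.mem_sup.1 hy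
        simp only [add_mul, mul_add]
        rw [hab x1 h1 y1 h3, (hbc h2).2 y1 h3, ← (hbc h4).2 x1 h1, hbab x2 h2 y2 h4]
        abel
      · intro x hx
        obtain ⟨x1, h1, x2, h2, rfl⟩ := Submodule.mem_sup.1 hx
        rw [mul_add, add_mul]
        exact Submodule.add_mem_sup (hst x1 h1) (hbst x2 h2)
    have := Submodule.eq_of_le_of_finrank_le (le_sup_left : a ≤ a ⊔ b) (hmax _ hPb)
    rw [this]
    exact le_sup_right
  have hperp : perp τ (cent g a) a = ⊥ := by
    by_contra hne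
    have hWst : ∀ x ∈ perp τ (cent g a) a, ad u v x ∈ perp τ (cent g a) a := by
      intro x hx
      refine ⟨⟨hg x hx.1.1, fun z hz => ?_⟩, fun z hz => ?_⟩
      · obtain ⟨w, hw, rfl⟩ := hsurj z hz
        simp only [ad_apply]
        rw [hmul, hmul, hx.1.2 w hw]
      · obtain ⟨w, hw, rfl⟩ := hsurj z hz
        simp only [ad_apply]
        rw [hmul, hτ, hx.2 w hw]
    obtain ⟨A, hA, hA0, α, β, hq⟩ := quad _ hne (ad u v) hWst
    have hB := hWst A hA
    set B := ad u v A with hBdef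
    have hnot : ∀ x ∈ perp τ (cent g a) a, x ∈ a → x = 0 := fun x hx hxa =>
      hG.aniso x hx.1.1 (hx.2 x hxa)
    by_cases hc : A * B - B * A = 0
    · have hAB : A * B = B * A := sub_eq_zero.1 hc
      have hle : Submodule.span ℝ {A, B} ≤ a := by
        apply hext
        · rw [Submodule.span_le]
          rintro x (rfl | rfl)
          · exact hA.1
          · exact hB.1
        · intro x hx y hy
          obtain ⟨p, q, rfl⟩ := Submodule.mem_span_pair.1 hx
          obtain ⟨r, s, rfl⟩ := Submodule.mem_span_pair.1 hy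
          simp only [add_mul, mul_add, smul_mul_assoc, mul_smul_comm, hAB]
          module
        · intro x hx
          obtain ⟨p, q, rfl⟩ := Submodule.mem_span_pair.1 hx
          rw [← ad_apply, map_add, map_smul, map_smul, ← hBdef, hq]
          refine Submodule.mem_span_pair.2 ⟨q * β, p + q * α, ?_⟩
          module
      exact hA0 (hnot A hA (hle (Submodule.subset_span (by simp))))
    · have hC : A * B - B * A ∈ perp τ (cent g a) a := by
        refine ⟨⟨hG.br A hA.1.1 B hB.1.1, fun z hz => ?_⟩, fun z hz => ?_⟩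
        · have h1 := hA.1.2 z hz
          have h2 := hB.1.2 z hz
          rw [sub_mul, mul_sub, mul_assoc, h2, ← mul_assoc, h1, mul_assoc B, h1, ← mul_assoc B, h2]
          simp only [mul_assoc]
        · have h2 := hB.1.2 z hz
          rw [sub_mul, map_sub, mul_assoc B, hG.comm B, mul_assoc A z, ← h2, mul_assoc, sub_self]
      have hle : Submodule.span ℝ {A * B - B * A} ≤ a := by
        apply hext
        · rw [Submodule.span_le]
          rintro x rfl
          exact hC.1
        · intro x hx y hy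
          obtain ⟨p, rfl⟩ := Submodule.mem_span_singleton.1 hx
          obtain ⟨r, rfl⟩ := Submodule.mem_span_singleton.1 hy
          simp only [smul_mul_assoc, mul_smul_comm]
          module
        · intro x hx
          obtain ⟨p, rfl⟩ := Submodule.mem_span_singleton.1 hx
          rw [← ad_apply, map_smul, map_sub, ad_apply, ad_apply, ← hmul, ← hmul, ← ad_apply u v A,
            ← ad_apply u v B, ← hBdef, hq]
          refine Submodule.mem_span_singleton.2 ⟨-(p * β), ?_⟩
          simp only [add_mul, mul_add, smul_mul_assoc, mul_smul_comm]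
          module
      exact hc (hnot _ hC (hle (Submodule.subset_span (by simp))))
  have hca := eq_of_perp_bot τ (cent g a) a hac hperp
  refine ⟨a, ⟨hag, fun y hy => ⟨fun h => hab y h, fun h => ?_⟩⟩, hst⟩
  rw [← hca]
  exact ⟨hy, h⟩

theorem exists_eps {τ : R →ₗ[ℝ] ℝ} {g : Submodule ℝ R} (hG : Good τ g) (X Y : R) (hY : Y ∈ g)
    (hXY : X * Y = Y * X) : ∃ ε : ℝ, ∀ w ∈ g, w * (X + ε • Y) = (X + ε • Y) * w →
      w * Y = Y * w := by
  by_contra hcon
  push Not at hcon
  choose w hwg hw hne using hcon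
  let b : ℝ → R := fun ε => w ε * Y - Y * w ε
  have hbg : ∀ ε, b ε ∈ g := fun ε => hG.br _ (hwg ε) _ hY
  have hX : ∀ ε, w ε * X - X * w ε = -ε • b ε := by
    intro ε
    have := hw ε
    simp only [mul_add, add_mul, mul_smul_comm, smul_mul_assoc] at this
    simp only [b, smul_sub, neg_smul]
    rw [sub_eq_iff_eq_add]
    have h2 : w ε * X = X * w ε + ε • (Y * w ε) - ε • (w ε * Y) := by rw [← this]; abel
    rw [h2]; abel
  have key : ∀ p q : R, τ ((p * X - X * p) * (q * Y - Y * q)) =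
      τ ((p * Y - Y * p) * (q * X - X * q)) := by
    intro p q
    simp only [sub_mul, mul_sub, map_sub]
    have e1 : τ (X * p * (q * Y)) = τ (Y * p * (q * X)) := by
      calc τ (X * p * (q * Y)) = τ (X * (p * q * Y)) := by simp only [mul_assoc]
        _ = τ (p * q * Y * X) := hG.comm _ _
        _ = τ (p * q * X * Y) := by rw [mul_assoc _ Y, ← hXY, ← mul_assoc]
        _ = τ (Y * (p * q * X)) := hG.comm _ _
        _ = _ := by simp only [mul_assoc]
    have e2 : τ (p * X * (Y * q)) = τ (p * Y * (X * q)) := by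
      congr 1
      calc p * X * (Y * q) = p * (X * Y) * q := by simp only [mul_assoc]
        _ = _ := by rw [hXY]; simp only [mul_assoc]
    have e3 : τ (p * X * (q * Y)) = τ (Y * p * (X * q)) := by
      calc τ (p * X * (q * Y)) = τ (p * X * q * Y) := by simp only [mul_assoc]
        _ = τ (Y * (p * X * q)) := hG.comm _ _
        _ = _ := by simp only [mul_assoc]
    have e4 : τ (X * p * (Y * q)) = τ (p * Y * (q * X)) := by
      calc τ (X * p * (Y * q)) = τ (X * (p * Y * q)) := by simp only [mul_assoc]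
        _ = τ (p * Y * q * X) := hG.comm _ _
        _ = _ := by simp only [mul_assoc]
    rw [e1, e2, e3, e4]
    ring
  have horth : ∀ ε ε', ε ≠ ε' → τ (b ε * b ε') = 0 := by
    intro ε ε' h
    have h1 := key (w ε) (w ε')
    rw [hX, hX] at h1
    change τ ((-ε • b ε) * b ε') = τ (b ε * (-ε' • b ε')) at h1
    rw [smul_mul_assoc, mul_smul_comm, map_smul, map_smul, smul_eq_mul, smul_eq_mul] at h1
    have h2 : (ε - ε') * τ (b ε * b ε') = 0 := by linarith
    exact (mul_eq_zero.1 h2).resolve_left (sub_ne_zero.2 h)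
  have hli : LinearIndependent ℝ b := by
    refine LinearMap.linearIndependent_of_isOrthoᵢ (B := (LinearMap.mul ℝ R).compr₂ τ) ?_ ?_
    · intro i j hij
      exact horth i j hij
    · intro i hi
      have : b i = 0 := hG.aniso _ (hbg i) hi
      exact hne i (sub_eq_zero.1 this)
  exact Module.Finite.not_linearIndependent_of_infinite b hli

theorem exists_regular {τ : R →ₗ[ℝ] ℝ} {g t : Submodule ℝ R} (hG : Good τ g) (ht : Cartan g t) :
    ∃ X ∈ t, ∀ y ∈ g, y * X = X * y → y ∈ t := by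
  classical
  let c : R → Submodule ℝ R := fun X => cent g (Submodule.span ℝ {X})
  have hc : ∀ X y, y ∈ c X ↔ y ∈ g ∧ y * X = X * y := by
    intro X y
    constructor
    · exact fun h => ⟨h.1, h.2 X (Submodule.subset_span rfl)⟩
    · refine fun h => ⟨h.1, fun z hz => ?_⟩
      obtain ⟨r, rfl⟩ := Submodule.mem_span_singleton.1 hz
      rw [mul_smul_comm, smul_mul_assoc, h.2]
  have hex : ∃ n, ∃ X ∈ t, finrank ℝ (c X) = n := ⟨_, 0, t.zero_mem, rfl⟩
  obtain ⟨X, hXt, hX⟩ := Nat.find_spec hex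
  refine ⟨X, hXt, fun y hy hyX => ?_⟩
  refine (ht.2 y hy).2 fun Y hY => ?_
  have hXY : X * Y = Y * X := (ht.2 X (ht.1 hXt)).1 hXt Y hY
  obtain ⟨ε, hε⟩ := exists_eps hG X Y (ht.1 hY) hXY
  have hle : c (X + ε • Y) ≤ c X := by
    intro w hw
    obtain ⟨hwg, hw⟩ := (hc _ _).1 hw
    have h1 := hε w hwg hw
    refine (hc _ _).2 ⟨hwg, ?_⟩
    simp only [mul_add, add_mul, mul_smul_comm, smul_mul_assoc, h1] at hw
    exact add_right_cancel hw
  have hmin : finrank ℝ (c X) ≤ finrank ℝ (c (X + ε • Y)) := by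
    rw [hX]
    exact Nat.find_min' hex ⟨_, t.add_mem hXt (t.smul_mem ε hY), rfl⟩
  have heq := Submodule.eq_of_le_of_finrank_le hle hmin
  have hyc : y ∈ c (X + ε • Y) := by rw [heq]; exact (hc _ _).2 ⟨hy, hyX⟩
  exact hε y hy ((hc _ _).1 hyc).2

omit [FiniteDimensional ℝ R] in
theorem conj_of_comm {g t t' : Submodule ℝ R} (ht : Cartan g t) (ht' : Cartan g t') {X X' : R}
    (hX : X ∈ t) (hX' : X' ∈ t') (hr : ∀ y ∈ g, y * X = X * y → y ∈ t)
    (hr' : ∀ y ∈ g, y * X' = X' * y → y ∈ t') (u v : R) (huv : u * v = 1) (hvu : v * u = 1)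
    (hg : ∀ x ∈ g, u * x * v ∈ g) (hg' : ∀ x ∈ g, v * x * u ∈ g)
    (h : u * X * v * X' = X' * (u * X * v)) :
    (∀ z ∈ t, u * z * v ∈ t') ∧ ∀ z ∈ t', v * z * u ∈ t := by
  have tr : ∀ (u v : R), u * v = 1 → v * u = 1 → ∀ a b : R, a * (u * b * v) = u * b * v * a →
      v * a * u * b = b * (v * a * u) := by
    intro u v huv hvu a b e
    calc v * a * u * b = v * (a * (u * b * v)) * u := by
          simp only [mul_assoc, hvu, mul_one]
      _ = (v * u) * b * v * a * u := by rw [e]; simp only [mul_assoc]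
      _ = _ := by rw [hvu, one_mul]; simp only [mul_assoc]
  have h1 : u * X * v ∈ t' := hr' _ (hg X (ht.1 hX)) h
  have h2 : ∀ z ∈ t', v * z * u ∈ t := by
    intro z hz
    refine hr _ (hg' z (ht'.1 hz)) (tr u v huv hvu _ _ ?_)
    exact (ht'.2 z (ht'.1 hz)).1 hz _ h1
  refine ⟨fun z hz => ?_, h2⟩
  refine hr' _ (hg z (ht.1 hz)) (tr v u hvu huv _ _ ?_)
  exact (ht.2 z (ht.1 hz)).1 hz _ (h2 X' hX')

omit [FiniteDimensional ℝ R] in
theorem abelian_of_ideal {τ : R →ₗ[ℝ] ℝ} {g t : Submodule ℝ R} (hG : Good τ g) (ht : Cartan g t)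
    (h : ∀ y ∈ g, ∀ z ∈ t, y * z - z * y ∈ t) : ∀ x ∈ g, ∀ y ∈ g, x * y = y * x := by
  have hall : ∀ y ∈ g, y ∈ t := by
    intro y hy
    refine (ht.2 y hy).2 fun z hz => ?_
    have hw := h y hy z hz
    rw [← sub_eq_zero]
    refine hG.aniso _ (ht.1 hw) ?_
    set w := y * z - z * y with hwdef
    have hzw : z * w = w * z := (ht.2 z (ht.1 hz)).1 hz w hw
    conv_lhs => rw [show w * w = (y * z - z * y) * w from rfl]
    rw [sub_mul, map_sub, mul_assoc z, hG.comm z, mul_assoc y, hzw, mul_assoc, sub_self]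
  intro x hx y hy
  exact (ht.2 x hx).1 (hall x hx) y (hall y hy)

end Pool.H446TIG
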