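import Mathlib

set_option autoImplicit false

namespace Pool.H446TIG

open Pointwise

/-- Jordan: a subgroup of finite index meeting every conjugacy class is everything. -/
theorem jordan {Q : Type*} [Group Q] (U : Subgroup Q) [hU : U.FiniteIndex]
    (h : ∀ x : Q, ∃ g : Q, g * x * g⁻¹ ∈ U) : U = ⊤ := by
  classical
  haveI : Fintype (Q ⧸ U) := Fintype.ofFinite _
  let H : (Q ⧸ U) → Subgroup Q := fun q => MulAction.stabilizer Q q
  have hcov : ⋃ i ∈ (Finset.univ : Finset (Q ⧸ U)), (fun _ => (1 : Q)) i • (H i : Set Q)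
      = Set.univ := by
    ext x
    simp only [Finset.mem_univ, one_smul, Set.iUnion_true, Set.mem_iUnion, Set.mem_univ, iff_true]
    obtain ⟨g, hg⟩ := h x
    refine ⟨((g⁻¹ : Q) : Q ⧸ U), ?_⟩
    change x • ((g⁻¹ : Q) : Q ⧸ U) = ((g⁻¹ : Q) : Q ⧸ U)
    rw [MulAction.Quotient.smul_coe, QuotientGroup.eq]
    have : (x • g⁻¹)⁻¹ * g⁻¹ = (g * x * g⁻¹)⁻¹ := by simp [mul_assoc]
    rw [this]
    exact U.inv_mem hg
  have hidx : ∀ q : Q ⧸ U, (H q).index = U.index := by
    intro q
    rw [MulAction.index_stabilizer_of_transitive]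
    rfl
  have hpos : U.index ≠ 0 := hU.index_ne_zero
  have hsum : ∑ i ∈ (Finset.univ : Finset (Q ⧸ U)), ((H i).index : ℚ)⁻¹ = 1 := by
    simp only [hidx, Finset.sum_const, Finset.card_univ, nsmul_eq_mul]
    have : Fintype.card (Q ⧸ U) = U.index := by
      rw [Subgroup.index, Nat.card_eq_fintype_card]
    rw [this]
    exact mul_inv_cancel₀ (Nat.cast_ne_zero.2 hpos)
  have hdis := Subgroup.pairwiseDisjoint_leftCoset_cover_of_sum_inv_index_eq_one hcov hsum
  have hfi : ∀ q : Q ⧸ U, (H q).FiniteIndex := fun q => ⟨by rw [hidx]; exact hpos⟩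
  rw [eq_top_iff]
  intro x _
  by_contra hx
  have hne : ((x : Q) : Q ⧸ U) ≠ ((1 : Q) : Q ⧸ U) := by
    intro e
    rw [QuotientGroup.eq] at e
    exact hx (by simpa using e)
  have h1 := hdis (x := ((x : Q) : Q ⧸ U)) (by simp [hfi]) (y := ((1 : Q) : Q ⧸ U))
    (by simp [hfi]) hne
  have h2 : (1 : Q) ∈ (1 : Q) • (H ((x : Q) : Q ⧸ U) : Set Q) ⊓
      (1 : Q) • (H ((1 : Q) : Q ⧸ U) : Set Q) := by
    simp
  have h3 := h1.eq_bot
  simp only [Function.onFun] at h3
  rw [h3] at h2
  exact h2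

section
variable {G : Type*} [Group G] [TopologicalSpace G] [IsTopologicalGroup G] [CompactSpace G]
  [T2Space G]

theorem backward (N : Subgroup G) (hn : N.Normal) (hc : IsClosed (N : Set G))
    (hab : ∀ a ∈ N, ∀ b ∈ N, a * b = b * a) (htd : TotallyDisconnectedSpace (G ⧸ N))
    (H : Subgroup G) (hH : IsClosed (H : Set G)) (h : ∀ x : G, ∃ g : G, g * x * g⁻¹ ∈ H) :
    H = ⊤ := by
  haveI := hc
  let π : G →* G ⧸ N := QuotientGroup.mk' N
  have hπc : Continuous π := QuotientGroup.continuous_mk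
  have hcl : IsClosed ((H.map π : Subgroup (G ⧸ N)) : Set (G ⧸ N)) := by
    rw [Subgroup.coe_map]
    exact (hH.isCompact.image hπc).isClosed
  have htop : H.map π = ⊤ := by
    have h1 := ProfiniteGrp.closedSubgroup_eq_sInf_open (G := G ⧸ N) ⟨H.map π, hcl⟩
    change H.map π = _ at h1
    rw [h1, eq_top_iff]
    refine le_sInf ?_
    rintro U ⟨hUo, hUle⟩
    haveI : Finite ((G ⧸ N) ⧸ U) := Subgroup.quotient_finite_of_isOpen U hUo
    haveI : U.FiniteIndex := Subgroup.finiteIndex_of_finite_quotient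
    rw [jordan U]
    intro x
    obtain ⟨y, rfl⟩ := QuotientGroup.mk'_surjective N x
    obtain ⟨g, hg⟩ := h y
    refine ⟨π g, hUle ?_⟩
    change π g * π y * (π g)⁻¹ ∈ H.map π
    rw [← map_inv, ← map_mul, ← map_mul]
    exact Subgroup.mem_map_of_mem π hg
  have hdec : ∀ g : G, ∃ a ∈ H, a⁻¹ * g ∈ N := by
    intro g
    have : π g ∈ H.map π := by rw [htop]; trivial
    obtain ⟨a, ha, e⟩ := this
    exact ⟨a, ha, QuotientGroup.eq.1 e⟩
  have hNH : N ≤ H := by
    intro n hnN
    obtain ⟨g, hg⟩ := h n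
    obtain ⟨a, ha, hm⟩ := hdec g
    have e1 : a⁻¹ * g * n = n * (a⁻¹ * g) := hab _ hm _ hnN
    have e2 : n = a⁻¹ * (g * n * g⁻¹) * a := by
      calc n = n * (a⁻¹ * g) * (g⁻¹ * a) := by group
        _ = a⁻¹ * g * n * (g⁻¹ * a) := by rw [e1]
        _ = _ := by group
    rw [e2]
    exact H.mul_mem (H.mul_mem (H.inv_mem ha) hg) ha
  rw [eq_top_iff]
  intro g _
  obtain ⟨a, ha, hm⟩ := hdec g
  have := H.mul_mem ha (hNH hm)
  simpa using this

omit [CompactSpace G] [T2Space G] in
theorem comp_normal : (Subgroup.connectedComponentOfOne G).Normal := by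
  refine ⟨fun n hn g => ?_⟩
  have hc : Continuous fun x : G => g * x * g⁻¹ := by fun_prop
  have := hc.mapsTo_connectedComponent 1 hn
  change g * n * g⁻¹ ∈ connectedComponent 1
  simpa using this

omit [CompactSpace G] [T2Space G] in
theorem comp_td : TotallyDisconnectedSpace (G ⧸ Subgroup.connectedComponentOfOne G) := by
  set N := Subgroup.connectedComponentOfOne G with hN
  have hq : Topology.IsQuotientMap (QuotientGroup.mk : G → G ⧸ N) :=
    QuotientGroup.isQuotientMap_mk N
  have hfib : ∀ a : G, (QuotientGroup.mk : G → G ⧸ N) ⁻¹' {(a : G ⧸ N)} = connectedComponent a := by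
    intro a
    ext x
    simp only [Set.mem_preimage, Set.mem_singleton_iff]
    rw [eq_comm, QuotientGroup.eq]
    constructor
    · intro hx
      have hc : Continuous fun y : G => a * y := by fun_prop
      have := hc.mapsTo_connectedComponent 1 hx
      simpa using this
    · intro hx
      have hc : Continuous fun y : G => a⁻¹ * y := by fun_prop
      have := hc.mapsTo_connectedComponent a hx
      change a⁻¹ * x ∈ connectedComponent 1
      simpa using this
  have hfib' : ∀ y : G ⧸ N, IsConnected ((QuotientGroup.mk : G → G ⧸ N) ⁻¹' {y}) := by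
    intro y
    obtain ⟨a, rfl⟩ := QuotientGroup.mk_surjective y
    rw [hfib]
    exact isConnected_connectedComponent
  rw [totallyDisconnectedSpace_iff_connectedComponent_singleton]
  intro y
  obtain ⟨a, rfl⟩ := QuotientGroup.mk_surjective y
  rw [← hq.isCoinducing.image_connectedComponent hfib' a, ← hfib a,
    Set.image_preimage_eq _ QuotientGroup.mk_surjective]

end

end Pool.H446TIG
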