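import Mathlib
import Pool.Agent.Helper472.Lat_PW
import Pool.Agent.Helper472.Lat_CST1
import Pool.Agent.Helper472.Lat_CST2
import Pool.Agent.Helper472.Lat_TTL
import Pool.Agent.H446Z.TIG.Alg
import Pool.Agent.H446Z.TIG.Top

set_option autoImplicit false

namespace Pool.H446TIG

open Pool.LatH472 Matrix NormedSpace

variable {ι : Type} [Fintype ι] [DecidableEq ι]

section
set_option backward.isDefEq.respectTransparency false
open scoped Matrix.Norms.Frobenius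

theorem deriv_conj (φ : Matrix ι ι ℂ →ₗ[ℝ] ℝ) (Y Z : Matrix ι ι ℂ) :
    HasDerivAt (fun t : ℝ => φ (exp (t • Y) * Z * exp (t • (-Y)))) (φ (Y * Z - Z * Y)) 0 := by
  have h1 : HasDerivAt (fun t : ℝ => exp (t • Y)) (exp ((0 : ℝ) • Y) * Y) 0 :=
    hasDerivAt_exp_smul_const Y (0 : ℝ)
  have h2 : HasDerivAt (fun t : ℝ => exp (t • (-Y))) (exp ((0 : ℝ) • (-Y)) * (-Y)) 0 :=
    hasDerivAt_exp_smul_const (-Y) (0 : ℝ)
  have h3 := (h1.mul_const Z).mul h2
  simp only [zero_smul, exp_zero, one_mul, mul_one] at h3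
  let T : Matrix ι ι ℂ →L[ℝ] ℝ := LinearMap.toContinuousLinearMap φ
  have h4 := T.hasFDerivAt.comp_hasDerivAt (0 : ℝ) h3
  have e : Y * Z - Z * Y = Y * Z + Z * -Y := by rw [Matrix.mul_neg, sub_eq_add_neg]
  rw [e]
  exact h4

theorem aniso_skew (X : Matrix ι ι ℂ) (hX : Xᴴ = -X) (h : (Matrix.trace (X * X)).re = 0) :
    X = 0 := by
  have h1 := TTL_trsq X
  rw [hX, Matrix.neg_mul, Matrix.trace_neg, Complex.neg_re, h, neg_zero] at h1
  exact norm_eq_zero.1 (pow_eq_zero_iff two_ne_zero |>.1 h1.symm)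

end

theorem mem_of_curve (S : Submodule ℝ (Matrix ι ι ℂ)) (Y Z : Matrix ι ι ℂ)
    (h : ∀ t : ℝ, exp (t • Y) * Z * exp (t • (-Y)) ∈ S) : Y * Z - Z * Y ∈ S := by
  rw [← Subspace.forall_mem_dualAnnihilator_apply_eq_zero_iff]
  intro φ hφ
  have h1 := deriv_conj φ Y Z
  have h2 : (fun t : ℝ => φ (exp (t • Y) * Z * exp (t • (-Y)))) = fun _ => 0 := by
    funext t
    exact (Submodule.mem_dualAnnihilator φ).1 hφ _ (h t)
  rw [h2] at h1
  exact h1.unique (hasDerivAt_const _ _)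

/-- real part of the trace -/
noncomputable def tau (ι : Type) [Fintype ι] [DecidableEq ι] : Matrix ι ι ℂ →ₗ[ℝ] ℝ :=
  Complex.reLm.comp (Matrix.traceLinearMap ι ℝ ℂ)

theorem tau_apply (X : Matrix ι ι ℂ) : tau ι X = (Matrix.trace X).re := rfl

/-- the tangent algebra as a real subspace -/
def alg (L : Subgroup (unitaryGroup ι ℂ)) (hL : IsClosed (L : Set (unitaryGroup ι ℂ))) :
    Submodule ℝ (Matrix ι ι ℂ) where
  carrier := LieAlg L
  add_mem' := fun {x y} hx hy => (CST1 ι L hL x hx y hy).1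
  zero_mem' := ⟨by simp, fun t => ⟨1, L.one_mem, by simp⟩⟩
  smul_mem' := fun c x hx => ⟨by rw [Matrix.conjTranspose_smul, hx.1]; simp, fun t => by
    rw [smul_smul]; exact hx.2 _⟩

theorem mul_inv_val (u : unitaryGroup ι ℂ) :
    (u : Matrix ι ι ℂ) * ((u⁻¹ : unitaryGroup ι ℂ) : Matrix ι ι ℂ) = 1 := by
  rw [← Submonoid.coe_mul, mul_inv_cancel]; rfl

theorem inv_mul_val (u : unitaryGroup ι ℂ) :
    ((u⁻¹ : unitaryGroup ι ℂ) : Matrix ι ι ℂ) * (u : Matrix ι ι ℂ) = 1 := by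
  rw [← Submonoid.coe_mul, inv_mul_cancel]; rfl

theorem ad_mem {L : Subgroup (unitaryGroup ι ℂ)} (hL : IsClosed (L : Set (unitaryGroup ι ℂ)))
    (u : unitaryGroup ι ℂ) (hu : ∀ c ∈ L, u * c * u⁻¹ ∈ L) :
    ∀ X ∈ alg L hL, (u : Matrix ι ι ℂ) * X * ((u⁻¹ : unitaryGroup ι ℂ) : Matrix ι ι ℂ)
      ∈ alg L hL := by
  intro X hX
  refine ⟨?_, fun t => ?_⟩
  · rw [Matrix.UnitaryGroup.inv_val, Matrix.star_eq_conjTranspose, Matrix.conjTranspose_mul,
      Matrix.conjTranspose_mul, Matrix.conjTranspose_conjTranspose, hX.1]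
    simp [Matrix.mul_assoc]
  · obtain ⟨c, hc, e⟩ := hX.2 t
    refine ⟨_, hu c hc, ?_⟩
    let U : (Matrix ι ι ℂ)ˣ := ⟨u, ((u⁻¹ : unitaryGroup ι ℂ) : Matrix ι ι ℂ), mul_inv_val u,
      inv_mul_val u⟩
    have h1 := Matrix.exp_units_conj U (t • X)
    rw [Submonoid.coe_mul, Submonoid.coe_mul, e]
    have h2 : t • ((u : Matrix ι ι ℂ) * X * ((u⁻¹ : unitaryGroup ι ℂ) : Matrix ι ι ℂ))
        = (U : Matrix ι ι ℂ) * (t • X) * ((U⁻¹ : (Matrix ι ι ℂ)ˣ) : Matrix ι ι ℂ) := by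
      rw [Matrix.mul_smul, Matrix.smul_mul]; rfl
    rw [h2, h1]
    rfl

theorem one_par {L : Subgroup (unitaryGroup ι ℂ)} {Y : Matrix ι ι ℂ} (hY : Y ∈ LieAlg L) (t : ℝ) :
    ∃ c ∈ L, (c : Matrix ι ι ℂ) = exp (t • Y) ∧
      ((c⁻¹ : unitaryGroup ι ℂ) : Matrix ι ι ℂ) = exp (t • (-Y)) := by
  obtain ⟨c, hc, e⟩ := hY.2 t
  refine ⟨c, hc, e, ?_⟩
  rw [TTL_inv_val (t • Y) (by rw [Matrix.conjTranspose_smul, hY.1]; simp) c e, smul_neg]

theorem good {L : Subgroup (unitaryGroup ι ℂ)} (hL : IsClosed (L : Set (unitaryGroup ι ℂ))) :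
    Good (tau ι) (alg L hL) where
  comm := fun x y => by rw [tau_apply, tau_apply, Matrix.trace_mul_comm]
  br := fun x hx y hy => by
    refine mem_of_curve _ _ _ fun t => ?_
    obtain ⟨c, hc, e1, e2⟩ := one_par hx t
    rw [← e1, ← e2]
    exact ad_mem hL c (fun d hd => L.mul_mem (L.mul_mem hc hd) (L.inv_mem hc)) y hy
  aniso := fun x hx h => aniso_skew x hx.1 h

theorem cont_conj (Z : Matrix ι ι ℂ) : Continuous fun u : unitaryGroup ι ℂ =>
    (u : Matrix ι ι ℂ) * Z * ((u⁻¹ : unitaryGroup ι ℂ) : Matrix ι ι ℂ) :=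
  (continuous_subtype_val.mul continuous_const).mul (continuous_subtype_val.comp continuous_inv)

theorem hunt {L : Subgroup (unitaryGroup ι ℂ)} (hL : IsClosed (L : Set (unitaryGroup ι ℂ)))
    {X X' : Matrix ι ι ℂ} (hX : X ∈ alg L hL) (hX' : X' ∈ alg L hL) :
    ∃ k ∈ L, (k : Matrix ι ι ℂ) * X * ((k⁻¹ : unitaryGroup ι ℂ) : Matrix ι ι ℂ) * X' =
      X' * ((k : Matrix ι ι ℂ) * X * ((k⁻¹ : unitaryGroup ι ℂ) : Matrix ι ι ℂ)) := by
  haveI : CompactSpace (unitaryGroup ι ℂ) := TTL_compact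
  let φ : Matrix ι ι ℂ →ₗ[ℝ] ℝ := (tau ι).comp (LinearMap.mulRight ℝ X')
  have hφ : Continuous φ := LinearMap.continuous_of_finiteDimensional φ
  obtain ⟨k, hk, hmax⟩ := hL.isCompact.exists_isMaxOn ⟨1, L.one_mem⟩
    (hφ.comp (cont_conj X)).continuousOn
  refine ⟨k, hk, ?_⟩
  have hG := good hL
  set W := (k : Matrix ι ι ℂ) * X * ((k⁻¹ : unitaryGroup ι ℂ) : Matrix ι ι ℂ) with hW
  have hWm : W ∈ alg L hL :=
    ad_mem hL k (fun d hd => L.mul_mem (L.mul_mem hk hd) (L.inv_mem hk)) X hX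
  have hY := hG.br W hWm X' hX'
  set Y := W * X' - X' * W with hYdef
  have hloc : IsLocalMax (fun t : ℝ => φ (exp (t • Y) * W * exp (t • (-Y)))) 0 := by
    refine Filter.Eventually.of_forall fun t => ?_
    obtain ⟨c, hc, e1, e2⟩ := one_par hY t
    have h1 := hmax (L.mul_mem hc hk)
    simp only [zero_smul, exp_zero, one_mul, mul_one]
    rw [← e1, ← e2]
    have e : (c : Matrix ι ι ℂ) * W * ((c⁻¹ : unitaryGroup ι ℂ) : Matrix ι ι ℂ) =
        ((c * k : unitaryGroup ι ℂ) : Matrix ι ι ℂ) * X *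
          (((c * k)⁻¹ : unitaryGroup ι ℂ) : Matrix ι ι ℂ) := by
      rw [_root_.mul_inv_rev, Submonoid.coe_mul, Submonoid.coe_mul, hW]
      simp only [Matrix.mul_assoc]
    rw [e]
    exact h1
  have h0 := hloc.hasDerivAt_eq_zero (deriv_conj φ Y W)
  rw [← sub_eq_zero]
  refine hG.aniso _ hY ?_
  change tau ι ((Y * W - W * Y) * X') = 0 at h0
  conv_lhs => rw [show Y * Y = Y * (W * X' - X' * W) from rfl]
  rw [sub_mul, map_sub, mul_assoc W, hG.comm W] at h0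
  rw [mul_sub, map_sub, ← mul_assoc Y W, ← mul_assoc Y X']
  exact h0

theorem forward {G : Type} [Group G] [TopologicalSpace G] [IsTopologicalGroup G] [CompactSpace G]
    [T2Space G] (N : Subgroup G) (hn : N.Normal) (hc : IsClosed (N : Set G))
    (hconn : IsConnected (N : Set G)) {a b : G} (ha : a ∈ N) (hb : b ∈ N) (hab : a * b ≠ b * a) :
    ∃ H : Subgroup G, IsClosed (H : Set G) ∧ H ≠ ⊤ ∧ ∀ x : G, ∃ g : G, g * x * g⁻¹ ∈ H := by
  have hk : a * b * (b * a)⁻¹ ≠ 1 := fun e => hab (mul_inv_eq_one.1 e)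
  obtain ⟨ι, _, _, ρ, hρ, hne⟩ := PW G _ hk
  let L : Subgroup (unitaryGroup ι ℂ) := N.map ρ
  have hL : IsClosed (L : Set (unitaryGroup ι ℂ)) := by
    rw [Subgroup.coe_map]
    exact (hc.isCompact.image hρ).isClosed
  have hLc : IsConnected (L : Set (unitaryGroup ι ℂ)) := by
    rw [Subgroup.coe_map]
    exact hconn.image _ hρ.continuousOn
  have hG := good hL
  have hnorm : ∀ x : G, ∀ c ∈ L, ρ x * c * (ρ x)⁻¹ ∈ L := by
    rintro x c ⟨n, hnN, rfl⟩
    rw [← map_inv, ← map_mul, ← map_mul]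
    exact Subgroup.mem_map_of_mem ρ (hn.conj_mem n hnN x)
  obtain ⟨t, ht, -⟩ := exists_stable_cartan hG 1 1 (one_mul _) (one_mul _) (by simp)
  let A : G → Matrix ι ι ℂ → Matrix ι ι ℂ := fun x z =>
    (ρ x : Matrix ι ι ℂ) * z * (((ρ x)⁻¹ : unitaryGroup ι ℂ) : Matrix ι ι ℂ)
  have hA : ∀ x y z, A (x * y) z = A x (A y z) := by
    intro x y z
    simp only [A, map_mul, _root_.mul_inv_rev, Submonoid.coe_mul, Matrix.mul_assoc]
  have hA1 : ∀ z, A 1 z = z := by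
    intro z
    simp [A]
  have hinv : ∀ (s : Submodule ℝ (Matrix ι ι ℂ)) (x : G), (∀ z ∈ s, A x z ∈ s) →
      ∀ z ∈ s, A x⁻¹ z ∈ s := by
    intro s x hx z hz
    have hinj : Function.Injective
        (ad (ρ x : Matrix ι ι ℂ) (((ρ x)⁻¹ : unitaryGroup ι ℂ) : Matrix ι ι ℂ)) := by
      intro p q e
      change A x p = A x q at e
      rw [← hA1 p, ← hA1 q, ← inv_mul_cancel x, hA, hA, e]
    obtain ⟨w, hw, e⟩ := stable_surj s _ hinj hx z hz
    change A x w = z at e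
    rw [← e, ← hA, inv_mul_cancel, hA1]
    exact hw
  let H : Subgroup G :=
    { carrier := {x | ∀ z ∈ t, A x z ∈ t}
      mul_mem' := fun {x y} hx hy z hz => by rw [hA]; exact hx _ (hy z hz)
      one_mem' := fun z hz => by rw [hA1]; exact hz
      inv_mem' := fun {x} hx => hinv t x hx }
  refine ⟨H, ?_, ?_, ?_⟩
  · have e : (H : Set G) = ⋂ z ∈ t, (fun x => A x z) ⁻¹' (t : Set (Matrix ι ι ℂ)) := by
      ext x
      simp only [Set.mem_iInter, Set.mem_preimage]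
      rfl
    rw [e]
    refine isClosed_biInter fun z _ => ?_
    exact (Submodule.closed_of_finiteDimensional t).preimage ((cont_conj z).comp hρ)
  · intro htop
    have hall : ∀ x : G, ∀ z ∈ t, A x z ∈ t := fun x => by
      have : x ∈ H := by rw [htop]; trivial
      exact this
    have hcomm := abelian_of_ideal hG ht (fun y hy z hz => by
      refine mem_of_curve _ _ _ fun s => ?_
      obtain ⟨c, ⟨n, _, rfl⟩, e1, e2⟩ := one_par hy s
      rw [← e1, ← e2]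
      exact hall n z hz)
    obtain ⟨X, hX, eX⟩ := TTL CST1 (CST2 CST1) ι L hL hLc (ρ a) (Subgroup.mem_map_of_mem ρ ha)
    obtain ⟨Y, hY, eY⟩ := TTL CST1 (CST2 CST1) ι L hL hLc (ρ b) (Subgroup.mem_map_of_mem ρ hb)
    have hXY : Commute X Y := hcomm X hX Y hY
    apply hne
    rw [map_mul, map_inv, mul_inv_eq_one, map_mul, map_mul]
    apply Subtype.ext
    rw [Submonoid.coe_mul, Submonoid.coe_mul, ← eX, ← eY, ← Matrix.exp_add_of_commute _ _ hXY,
      ← Matrix.exp_add_of_commute _ _ hXY.symm, add_comm]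
  · intro x
    obtain ⟨s, hs, hst⟩ := exists_stable_cartan hG (ρ x : Matrix ι ι ℂ) _ (mul_inv_val _)
      (inv_mul_val _) (ad_mem hL (ρ x) (hnorm x))
    obtain ⟨X, hX, hr⟩ := exists_regular hG hs
    obtain ⟨X', hX', hr'⟩ := exists_regular hG ht
    obtain ⟨k, ⟨n, _, rfl⟩, hk⟩ := hunt hL (hs.1 hX) (ht.1 hX')
    have h2 := ad_mem hL (ρ n⁻¹) (hnorm n⁻¹)
    rw [map_inv, inv_inv] at h2
    obtain ⟨h3, h4⟩ := conj_of_comm hs ht hX hX' hr hr' _ _ (mul_inv_val _) (inv_mul_val _)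
      (ad_mem hL (ρ n) (hnorm n)) h2 hk
    refine ⟨n, fun z hz => ?_⟩
    rw [hA, hA]
    refine h3 _ (hst _ ?_)
    have := h4 z hz
    simp only [A, map_inv, inv_inv]
    exact this

end Pool.H446TIG
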